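import Pool.Agent.N874.PP.Def

/-!
# Project PP, part FAM: many curves with squarefree discriminant in the family (helper490)
-/

set_option autoImplicit false
set_option linter.all false

open Polynomial
open scoped Classical

namespace Pool.Agent.N490.PP.Fam

open Pool.Agent.N874.PP

section basic

variable {k : Type} [Field k] [Finite k]

lemma card_lt (m : ℕ) : Nat.card (degreeLT k m) = Nat.card k ^ m := by
  rw [Nat.card_congr (degreeLTEquiv k m).toEquiv, Nat.card_pi]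
  simp

instance fin_lt (m : ℕ) : Finite (degreeLT k m) :=
  Finite.of_equiv _ (degreeLTEquiv k m).symm.toEquiv

lemma q_pos : 1 < Nat.card k := Finite.one_lt_card

lemma lt_ncard (m : ℕ) : (degreeLT k m : Set k[X]).ncard = Nat.card k ^ m := by
  rw [← Nat.card_coe_set_eq]
  exact card_lt m

lemma lt_finite (m : ℕ) : (degreeLT k m : Set k[X]).Finite := fin_lt m

/-- monic polynomials of degree `d` -/
def Mon (k : Type) [Field k] (d : ℕ) : Set k[X] := {g | g.Monic ∧ g.natDegree = d}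

lemma Mon_eq (d : ℕ) : Mon k d = (fun t => X ^ d + t) '' (degreeLT k d : Set k[X]) := by
  ext g
  simp only [Mon, Set.mem_ofPred_eq, Set.mem_image, SetLike.mem_coe, mem_degreeLT]
  constructor
  · rintro ⟨h1, h2⟩
    refine ⟨g - X ^ d, ?_, by ring⟩
    have h3 : g.degree = (X ^ d : k[X]).degree := by
      rw [degree_X_pow, degree_eq_natDegree h1.ne_zero, h2]
    have h4 := degree_sub_lt h3 h1.ne_zero (by rw [h1.leadingCoeff, (monic_X_pow d).leadingCoeff])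
    rwa [degree_eq_natDegree h1.ne_zero, h2] at h4
  · rintro ⟨t, ht, rfl⟩
    have h1 : t.degree < (X ^ d : k[X]).degree := by rwa [degree_X_pow]
    refine ⟨(monic_X_pow d).add_of_left h1, ?_⟩
    apply natDegree_eq_of_degree_eq_some
    rw [degree_add_eq_left_of_degree_lt h1, degree_X_pow]

lemma Mon_ncard (d : ℕ) : (Mon k d).ncard = Nat.card k ^ d := by
  rw [Mon_eq, Set.ncard_image_of_injective _ (add_right_injective _), lt_ncard]

lemma Mon_finite (d : ℕ) : (Mon k d).Finite := by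
  rw [Mon_eq]; exact (lt_finite d).image _

/-- monic irreducible polynomials of degree `d` -/
def Irr (k : Type) [Field k] (d : ℕ) : Set k[X] := {g | g.Monic ∧ Irreducible g ∧ g.natDegree = d}

lemma Irr_finite (d : ℕ) : (Irr k d).Finite :=
  (Mon_finite d).subset fun _ h => ⟨h.1, h.2.2⟩

lemma Irr_le (d : ℕ) : (Irr k d).ncard ≤ Nat.card k ^ d := by
  rw [← Mon_ncard]
  exact Set.ncard_le_ncard (fun _ h => ⟨h.1, h.2.2⟩) (Mon_finite d)

lemma coprime_of_ne {π ρ : k[X]} (hπ : π.Monic ∧ Irreducible π) (hρ : ρ.Monic ∧ Irreducible ρ)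
    (h : π ≠ ρ) : IsCoprime π ρ := by
  rw [hπ.2.coprime_iff_not_dvd]
  intro hd
  exact h (eq_of_monic_of_associated hπ.1 hρ.1 (hπ.2.associated_of_dvd hρ.2 hd))

/-- the number of the monic irreducible polynomials of degree `d` is at most `q ^ d / d` -/
lemma Irr_mul_le {d : ℕ} (hd : 1 ≤ d) : d * (Irr k d).ncard ≤ Nat.card k ^ d := by
  have hfin := Irr_finite (k := k) d
  have h1 : (∏ P ∈ hfin.toFinset, P) ∣ (X ^ (Nat.card k) ^ d - X : k[X]) := by
    apply Finset.prod_dvd_of_coprime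
    · intro P hP Q hQ hne
      have hP' := hfin.mem_toFinset.1 (Finset.mem_coe.1 hP)
      have hQ' := hfin.mem_toFinset.1 (Finset.mem_coe.1 hQ)
      exact coprime_of_ne ⟨hP'.1, hP'.2.1⟩ ⟨hQ'.1, hQ'.2.1⟩ hne
    · intro P hP
      have hP' := hfin.mem_toFinset.1 hP
      rw [← hP'.2.1.natDegree_dvd_iff_dvd_X_pow_card_pow_sub_X, hP'.2.2]
  have h2 : (X ^ (Nat.card k) ^ d - X : k[X]) ≠ 0 :=
    FiniteField.X_pow_card_pow_sub_X_ne_zero k (by omega) q_pos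
  have h3 := natDegree_le_of_dvd h1 h2
  rw [FiniteField.X_pow_card_pow_sub_X_natDegree_eq k (by omega) q_pos,
    natDegree_prod_of_monic _ _ (fun P hP => (hfin.mem_toFinset.1 hP).1),
    Finset.sum_congr rfl (fun P hP => (hfin.mem_toFinset.1 hP).2.2), Finset.sum_const,
    smul_eq_mul, ← Set.ncard_eq_toFinset_card _ hfin] at h3
  rw [mul_comm]
  exact h3

/-! ### polynomials in a box with a congruence condition -/

/-- the polynomials `g` with `deg (g - f) < n` and `g ≡ s` modulo `M` -/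
def Cl (n : ℕ) (f M s : k[X]) : Set k[X] := {g | g - f ∈ degreeLT k n ∧ M ∣ g - s}

lemma Cl_finite (n : ℕ) (f M s : k[X]) : (Cl n f M s).Finite := by
  have h : Cl n f M s ⊆ (fun t => t + f) '' (degreeLT k n : Set k[X]) := by
    intro g hg
    exact ⟨g - f, hg.1, by simp⟩
  exact ((lt_finite n).image _).subset h

lemma Cl_eq {n : ℕ} {f M s : k[X]} (hM : M.Monic) (h : M.natDegree ≤ n) :
    Cl n f M s = (fun t => (f + (s - f) %ₘ M) + M * t) '' (degreeLT k (n - M.natDegree) : Set k[X]) := by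
  have hdM : M.degree = (M.natDegree : WithBot ℕ) := degree_eq_natDegree hM.ne_zero
  ext g
  simp only [Cl, Set.mem_ofPred_eq, Set.mem_image, SetLike.mem_coe, mem_degreeLT]
  constructor
  · rintro ⟨h1, h2⟩
    refine ⟨(g - f) /ₘ M, ?_, ?_⟩
    · by_cases h0 : (g - f) /ₘ M = 0
      · rw [h0, degree_zero]; exact WithBot.bot_lt_coe _
      · have h3 : ¬ (g - f).degree < M.degree := fun h4 => h0 ((divByMonic_eq_zero_iff hM).2 h4)
        have h4 := degree_add_divByMonic hM (not_lt.1 h3)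
        have h5 : (g - f) ≠ 0 := by
          rintro h6
          rw [h6] at h0
          exact h0 (by simp)
        rw [degree_eq_natDegree h5] at h1 h4
        rw [hdM, degree_eq_natDegree h0] at h4
        rw [degree_eq_natDegree h0]
        have h6 : M.natDegree + ((g - f) /ₘ M).natDegree = (g - f).natDegree := by exact_mod_cast h4
        have h7 : (g - f).natDegree < n := by exact_mod_cast h1
        have h8 : ((g - f) /ₘ M).natDegree < n - M.natDegree := by omega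
        exact_mod_cast h8
    · have h3 : (g - f) %ₘ M = (s - f) %ₘ M := by
        have h4 : (g - f - (s - f)) %ₘ M = 0 := by
          rw [modByMonic_eq_zero_iff_dvd hM]
          simpa using h2
        rw [sub_modByMonic] at h4
        exact sub_eq_zero.1 h4
      have h5 := modByMonic_add_div (g - f) M
      rw [h3] at h5
      show f + (s - f) %ₘ M + M * ((g - f) /ₘ M) = g
      rw [add_assoc, h5]
      ring
  · rintro ⟨t, ht, rfl⟩
    constructor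
    · have h1 : f + (s - f) %ₘ M + M * t - f = (s - f) %ₘ M + M * t := by ring
      rw [h1]
      refine lt_of_le_of_lt (degree_add_le _ _) (max_lt ?_ ?_)
      · refine lt_of_lt_of_le (degree_modByMonic_lt _ hM) ?_
        rw [hdM]
        exact_mod_cast h
      · by_cases h0 : t = 0
        · rw [h0, mul_zero, degree_zero]; exact WithBot.bot_lt_coe _
        · rw [degree_eq_natDegree h0] at ht
          rw [degree_mul, hdM, degree_eq_natDegree h0]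
          have h2 : t.natDegree < n - M.natDegree := by exact_mod_cast ht
          have h3 : M.natDegree + t.natDegree < n := by omega
          exact_mod_cast h3
    · have h1 : f + (s - f) %ₘ M + M * t - s = M * (t - (s - f) /ₘ M) := by
        have h2 := modByMonic_add_div (s - f) M
        have h3 : (s - f) %ₘ M = s - f - M * ((s - f) /ₘ M) := by
          rw [eq_sub_iff_add_eq]; exact h2
        rw [h3]
        ring
      rw [h1]
      exact dvd_mul_right _ _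

lemma Cl_ncard {n : ℕ} {f M s : k[X]} (hM : M.Monic) (h : M.natDegree ≤ n) :
    (Cl n f M s).ncard = Nat.card k ^ (n - M.natDegree) := by
  rw [Cl_eq hM h, Set.ncard_image_of_injective, lt_ncard]
  intro t t' ht
  have h1 : M * t = M * t' := add_left_cancel ht
  exact mul_left_cancel₀ hM.ne_zero h1

lemma Cl_le {n : ℕ} {f M s : k[X]} (hM : M.Monic) :
    (Cl n f M s).ncard ≤ Nat.card k ^ (n - M.natDegree) := by
  rcases le_or_gt M.natDegree n with h | h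
  · exact (Cl_ncard hM h).le
  · rw [Nat.sub_eq_zero_of_le h.le, pow_zero, Set.ncard_le_one (Cl_finite _ _ _ _)]
    rintro g ⟨h1, h2⟩ g' ⟨h1', h2'⟩
    by_contra hne
    have h3 : M ∣ g - g' := by
      have : g - g' = (g - s) - (g' - s) := by ring
      rw [this]
      exact dvd_sub h2 h2'
    have h4 : g - g' ≠ 0 := sub_ne_zero.2 hne
    have h5 : (g - g').degree < n := by
      have : g - g' = (g - f) - (g' - f) := by ring
      rw [this]
      exact mem_degreeLT.1 (Submodule.sub_mem _ h1 h1')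
    have h6 := natDegree_le_of_dvd h3 h4
    rw [degree_eq_natDegree h4] at h5
    have h7 : (g - g').natDegree < n := by exact_mod_cast h5
    omega

/-- counting pairs by fibres -/
lemma ncard_fib {α β : Type} (A : Set α) (hA : A.Finite) (B : α → Set β) (m : ℕ)
    (hB : ∀ a ∈ A, (B a).Finite ∧ (B a).ncard ≤ m) :
    {p : α × β | p.1 ∈ A ∧ p.2 ∈ B p.1}.Finite ∧
      {p : α × β | p.1 ∈ A ∧ p.2 ∈ B p.1}.ncard ≤ A.ncard * m := by
  have h1 : {p : α × β | p.1 ∈ A ∧ p.2 ∈ B p.1} = ⋃ a ∈ hA.toFinset, (fun b => (a, b)) '' B a := by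
    ext ⟨a, b⟩
    simp only [Set.mem_ofPred_eq, Set.mem_iUnion, Set.mem_image, Prod.mk.injEq, exists_prop,
      hA.mem_toFinset]
    constructor
    · rintro ⟨h1, h2⟩
      exact ⟨a, h1, b, h2, rfl, rfl⟩
    · rintro ⟨a', h1, b', h2, rfl, rfl⟩
      exact ⟨h1, h2⟩
  constructor
  · rw [h1]
    exact Set.Finite.biUnion (Finset.finite_toSet _) fun a ha =>
      (hB a (hA.mem_toFinset.1 (by simpa using ha))).1.image _
  · rw [h1]
    refine (Finset.set_ncard_biUnion_le _ _).trans ?_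
    have h2 : ∀ a ∈ hA.toFinset, ((fun b => (a, b)) '' B a).ncard ≤ m := fun a ha =>
      (Set.ncard_image_le (hB a (hA.mem_toFinset.1 ha)).1).trans (hB a (hA.mem_toFinset.1 ha)).2
    refine (Finset.sum_le_sum h2).trans ?_
    rw [Finset.sum_const, smul_eq_mul, Set.ncard_eq_toFinset_card _ hA]

end basic

section pairs

variable {k : Type} [Field k] [Finite k]

lemma unit2 (h6 : (6 : k) ≠ 0) : IsUnit (2 : k[X]) := by
  have h : (2 : k) ≠ 0 := by
    intro h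
    apply h6
    have : (6 : k) = 2 * 3 := by norm_num
    rw [this, h, zero_mul]
  have h1 : (2 : k[X]) = C (2 : k) := (map_ofNat C 2).symm
  rw [h1]
  exact isUnit_C.2 (isUnit_iff_ne_zero.2 h)

lemma unit3 (h6 : (6 : k) ≠ 0) : IsUnit (3 : k[X]) := by
  have h : (3 : k) ≠ 0 := by
    intro h
    apply h6
    have : (6 : k) = 2 * 3 := by norm_num
    rw [this, h, mul_zero]
  have h1 : (3 : k[X]) = C (3 : k) := (map_ofNat C 3).symm
  rw [h1]
  exact isUnit_C.2 (isUnit_iff_ne_zero.2 h)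

lemma unit4 (h6 : (6 : k) ≠ 0) : IsUnit (4 : k[X]) := by
  have : (4 : k[X]) = 2 * 2 := by norm_num
  rw [this]
  exact (unit2 h6).mul (unit2 h6)

lemma unit27 (h6 : (6 : k) ≠ 0) : IsUnit (27 : k[X]) := by
  have : (27 : k[X]) = 3 * (3 * 3) := by norm_num
  rw [this]
  exact (unit3 h6).mul ((unit3 h6).mul (unit3 h6))

omit [Finite k] in
lemma dvd_of_unit_mul {u x P : k[X]} (hu : IsUnit u) (h : P ∣ u * x) : P ∣ x :=
  (hu.dvd_mul_left).1 h

/-- `P | b` if `P | a` -/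
lemma dvd_b (h6 : (6 : k) ≠ 0) {P a b : k[X]} (hP : Irreducible P) (ha : P ∣ a) (h : P ^ 2 ∣ dsc a b) :
    P ∣ b := by
  have h1 : P ∣ dsc a b := (dvd_pow_self P two_ne_zero).trans h
  unfold dsc at h1
  have h2 : P ∣ 4 * a ^ 3 := Dvd.dvd.mul_left (ha.trans (dvd_pow_self a three_ne_zero)) _
  have h3 : P ∣ 27 * b ^ 2 := (dvd_add_right h2).1 h1
  exact hP.prime.dvd_of_dvd_pow (dvd_of_unit_mul (unit27 h6) h3)

lemma dvd_a (h6 : (6 : k) ≠ 0) {P a b : k[X]} (hP : Irreducible P) (hb : P ∣ b) (h : P ∣ dsc a b) :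
    P ∣ a := by
  unfold dsc at h
  have h2 : P ∣ 27 * b ^ 2 := Dvd.dvd.mul_left (hb.trans (dvd_pow_self b two_ne_zero)) _
  have h3 : P ∣ 4 * a ^ 3 := (dvd_add_left h2).1 h
  exact hP.prime.dvd_of_dvd_pow (dvd_of_unit_mul (unit4 h6) h3)

/-- two solutions for the same `a` are equal up to the sign modulo `P ^ 2` -/
lemma two_sol (h6 : (6 : k) ≠ 0) {P a b b₁ : k[X]} (hP : Irreducible P) (ha : ¬ P ∣ a)
    (h : P ^ 2 ∣ dsc a b) (h₁ : P ^ 2 ∣ dsc a b₁) : P ^ 2 ∣ b - b₁ ∨ P ^ 2 ∣ b + b₁ := by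
  have h1 : P ^ 2 ∣ (b - b₁) * (b + b₁) := by
    have h2 : P ^ 2 ∣ 27 * ((b - b₁) * (b + b₁)) := by
      have h3 : 27 * ((b - b₁) * (b + b₁)) = dsc a b - dsc a b₁ := by unfold dsc; ring
      rw [h3]
      exact dvd_sub h h₁
    exact dvd_of_unit_mul (unit27 h6) h2
  have hb₁ : ¬ P ∣ b₁ := fun hb => ha (dvd_a h6 hP hb ((dvd_pow_self P two_ne_zero).trans h₁))
  by_cases h2 : P ∣ b + b₁
  · have h3 : ¬ P ∣ b - b₁ := by
      intro h4
      apply hb₁
      have h5 : P ∣ 2 * b₁ := by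
        have : 2 * b₁ = (b + b₁) - (b - b₁) := by ring
        rw [this]
        exact dvd_sub h2 h4
      exact dvd_of_unit_mul (unit2 h6) h5
    right
    exact ((hP.coprime_iff_not_dvd.2 h3).pow_left).dvd_of_dvd_mul_left h1
  · left
    exact ((hP.coprime_iff_not_dvd.2 h2).pow_left).dvd_of_dvd_mul_right h1

/-- the fibres over `a` prime to `P` -/
lemma fib (h6 : (6 : k) ≠ 0) {P M a : k[X]} (hP : Irreducible P) (hPm : P.Monic) (hM : M.Monic)
    (hc : IsCoprime P M) (ha : ¬ P ∣ a) (n : ℕ) (g : k[X]) :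
    {b | b ∈ Cl n g M 0 ∧ P ^ 2 ∣ dsc a b}.Finite ∧
    {b | b ∈ Cl n g M 0 ∧ P ^ 2 ∣ dsc a b}.ncard ≤
      2 * Nat.card k ^ (n - (2 * P.natDegree + M.natDegree)) := by
  have hfin : {b | b ∈ Cl n g M 0 ∧ P ^ 2 ∣ dsc a b}.Finite :=
    (Cl_finite n g M 0).subset fun _ h => h.1
  refine ⟨hfin, ?_⟩
  rcases Set.eq_empty_or_nonempty {b | b ∈ Cl n g M 0 ∧ P ^ 2 ∣ dsc a b} with h0 | ⟨b₁, h1, h2⟩
  · rw [h0, Set.ncard_empty]; exact Nat.zero_le _
  · have hsub : {b | b ∈ Cl n g M 0 ∧ P ^ 2 ∣ dsc a b} ⊆ Cl n g (P ^ 2 * M) b₁ ∪ Cl n g (P ^ 2 * M) (-b₁) := by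
      rintro b ⟨h3, h4⟩
      have hb : M ∣ b := by simpa using h3.2
      have hb₁ : M ∣ b₁ := by simpa using h1.2
      have hc2 : IsCoprime (P ^ 2) M := hc.pow_left
      rcases two_sol h6 hP ha h4 h2 with h5 | h5
      · left
        exact ⟨h3.1, hc2.mul_dvd h5 (dvd_sub hb hb₁)⟩
      · right
        refine ⟨h3.1, hc2.mul_dvd ?_ ?_⟩
        · rw [sub_neg_eq_add]; exact h5
        · rw [sub_neg_eq_add]; exact dvd_add hb hb₁
    have hm : (P ^ 2 * M).Monic := (hPm.pow 2).mul hM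
    have hd : (P ^ 2 * M).natDegree = 2 * P.natDegree + M.natDegree := by
      rw [(hPm.pow 2).natDegree_mul hM, natDegree_pow]
    have h3 := Set.ncard_le_ncard hsub ((Cl_finite _ _ _ _).union (Cl_finite _ _ _ _))
    have h4 := Set.ncard_union_le (Cl n g (P ^ 2 * M) b₁) (Cl n g (P ^ 2 * M) (-b₁))
    have h5 := Cl_le (n := n) (f := g) (s := b₁) hm
    have h6 := Cl_le (n := n) (f := g) (s := -b₁) hm
    rw [hd] at h5 h6
    omega

lemma Cl_dvd {P M : k[X]} (hPm : P.Monic) (hM : M.Monic) (hc : IsCoprime P M) (n : ℕ) (f s : k[X]) :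
    {g | g ∈ Cl n f M s ∧ P ∣ g}.Finite ∧
    {g | g ∈ Cl n f M s ∧ P ∣ g}.ncard ≤ Nat.card k ^ (n - (P.natDegree + M.natDegree)) := by
  have hfin : {g | g ∈ Cl n f M s ∧ P ∣ g}.Finite := (Cl_finite n f M s).subset fun _ h => h.1
  refine ⟨hfin, ?_⟩
  rcases Set.eq_empty_or_nonempty {g | g ∈ Cl n f M s ∧ P ∣ g} with h0 | ⟨b₁, h1, h2⟩
  · rw [h0, Set.ncard_empty]; exact Nat.zero_le _
  · have hsub : {g | g ∈ Cl n f M s ∧ P ∣ g} ⊆ Cl n f (P * M) b₁ := by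
      rintro b ⟨h3, h4⟩
      refine ⟨h3.1, hc.mul_dvd (dvd_sub h4 h2) ?_⟩
      have : b - b₁ = (b - s) - (b₁ - s) := by ring
      rw [this]
      exact dvd_sub h3.2 h1.2
    have h3 := Set.ncard_le_ncard hsub (Cl_finite _ _ _ _)
    have h4 := Cl_le (n := n) (f := f) (s := b₁) (hPm.mul hM)
    rw [hPm.natDegree_mul hM] at h4
    exact h3.trans h4

/-- the pairs with discriminant divisible by `P ^ 2` -/
def Bad (n m : ℕ) (f g M A P : k[X]) : Set (k[X] × k[X]) :=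
  {p | p.1 ∈ Cl n f M A ∧ p.2 ∈ Cl m g M 0 ∧ P ^ 2 ∣ dsc p.1 p.2}

lemma Bad_le (h6 : (6 : k) ≠ 0) {P M : k[X]} (hP : Irreducible P) (hPm : P.Monic) (hM : M.Monic)
    (hc : IsCoprime P M) (n m : ℕ) (f g A : k[X]) :
    (Bad n m f g M A P).Finite ∧ (Bad n m f g M A P).ncard ≤
      Nat.card k ^ (n - M.natDegree) * (2 * Nat.card k ^ (m - (2 * P.natDegree + M.natDegree))) +
      Nat.card k ^ (n - (P.natDegree + M.natDegree)) * Nat.card k ^ (m - (P.natDegree + M.natDegree)) := by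
  obtain ⟨f1, c1⟩ := ncard_fib {a | a ∈ Cl n f M A ∧ ¬ P ∣ a} ((Cl_finite n f M A).subset fun _ h => h.1)
    (fun a => {b | b ∈ Cl m g M 0 ∧ P ^ 2 ∣ dsc a b})
    (2 * Nat.card k ^ (m - (2 * P.natDegree + M.natDegree)))
    (fun a ha => fib h6 hP hPm hM hc ha.2 m g)
  obtain ⟨f2, c2⟩ := Cl_dvd hPm hM hc n f A
  obtain ⟨f3, c3⟩ := Cl_dvd hPm hM hc m g 0
  obtain ⟨f4, c4⟩ := ncard_fib {a | a ∈ Cl n f M A ∧ P ∣ a} f2
    (fun _ => {b | b ∈ Cl m g M 0 ∧ P ∣ b}) _ (fun a _ => ⟨f3, c3⟩)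
  have hsub : Bad n m f g M A P ⊆
      {p : k[X] × k[X] | p.1 ∈ {a | a ∈ Cl n f M A ∧ ¬ P ∣ a} ∧
        p.2 ∈ {b | b ∈ Cl m g M 0 ∧ P ^ 2 ∣ dsc p.1 b}} ∪
      {p : k[X] × k[X] | p.1 ∈ {a | a ∈ Cl n f M A ∧ P ∣ a} ∧ p.2 ∈ {b | b ∈ Cl m g M 0 ∧ P ∣ b}} := by
    rintro ⟨a, b⟩ ⟨h1, h2, h3⟩
    by_cases ha : P ∣ a
    · right
      exact ⟨⟨h1, ha⟩, h2, dvd_b h6 hP ha h3⟩
    · left
      exact ⟨⟨h1, ha⟩, h2, h3⟩
  refine ⟨(f1.union f4).subset hsub, ?_⟩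
  refine (Set.ncard_le_ncard hsub (f1.union f4)).trans ((Set.ncard_union_le _ _).trans ?_)
  refine add_le_add (c1.trans ?_) (c4.trans ?_)
  · refine Nat.mul_le_mul_right _ ?_
    exact (Set.ncard_le_ncard (fun _ h => h.1) (Cl_finite n f M A)).trans (Cl_le hM)
  · exact Nat.mul_le_mul_right _ c2

/-- the union over primes of degree `d` -/
lemma union_le {α : Type} (I : Set k[X]) (hI : I.Finite) (B : k[X] → Set α) (m : ℕ)
    (hB : ∀ P ∈ I, (B P).Finite ∧ (B P).ncard ≤ m) :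
    (⋃ P ∈ I, B P).Finite ∧ (⋃ P ∈ I, B P).ncard ≤ I.ncard * m := by
  have h1 : (⋃ P ∈ I, B P) = ⋃ P ∈ hI.toFinset, B P := by
    ext x; simp
  constructor
  · exact hI.biUnion fun P hP => (hB P hP).1
  · rw [h1]
    refine (Finset.set_ncard_biUnion_le _ _).trans ?_
    refine (Finset.sum_le_sum fun P hP => (hB P (hI.mem_toFinset.1 hP)).2).trans ?_
    rw [Finset.sum_const, smul_eq_mul, Set.ncard_eq_toFinset_card _ hI]

lemma union_fin {α : Type} (J : Finset ℕ) (B : ℕ → Set α) (m : ℕ → ℕ)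
    (hB : ∀ d ∈ J, (B d).Finite ∧ (B d).ncard ≤ m d) :
    (⋃ d ∈ J, B d).Finite ∧ (⋃ d ∈ J, B d).ncard ≤ ∑ d ∈ J, m d := by
  constructor
  · exact Set.Finite.biUnion (Finset.finite_toSet J) fun d hd => (hB d (by simpa using hd)).1
  · exact (Finset.set_ncard_biUnion_le _ _).trans (Finset.sum_le_sum fun d hd => (hB d hd).2)

omit [Finite k] in
lemma exists_monic {p : k[X]} (hp : Irreducible p) :
    ∃ π : k[X], π.Monic ∧ Irreducible π ∧ Associated π p := by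
  have ha : Associated (normalize p) p := normalize_associated p
  exact ⟨normalize p, monic_normalize hp.ne_zero, ha.symm.irreducible hp, ha⟩

omit [Finite k] in
lemma mem_box {n : ℕ} {c : k} {g : k[X]} :
    g - C c * X ^ n ∈ degreeLT k n ↔ g.natDegree ≤ n ∧ g.coeff n = c := by
  rw [mem_degreeLT, degree_lt_iff_coeff_zero]
  constructor
  · intro h
    constructor
    · rw [natDegree_le_iff_coeff_eq_zero]
      intro m hm
      have h1 := h m hm.le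
      rw [coeff_sub, coeff_C_mul_X_pow, if_neg (by omega), sub_zero] at h1
      exact h1
    · have h1 := h n le_rfl
      rw [coeff_sub, coeff_C_mul_X_pow, if_pos rfl] at h1
      exact sub_eq_zero.1 h1
  · rintro ⟨h1, h2⟩ m hm
    rw [coeff_sub, coeff_C_mul_X_pow]
    rcases hm.lt_or_eq with h | h
    · rw [if_neg (by omega), sub_zero]
      exact natDegree_le_iff_coeff_eq_zero.1 h1 m h
    · rw [if_pos h.symm, ← h, h2, sub_self]

omit [Finite k] in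
lemma dsc_deg {N : ℕ} {a b : k[X]} (ha : a.natDegree ≤ 4 * N) (hb : b.natDegree ≤ 6 * N) :
    (dsc a b).natDegree ≤ 12 * N := by
  unfold dsc
  refine (natDegree_add_le _ _).trans (max_le ?_ ?_)
  · refine (natDegree_mul_le).trans ?_
    have h1 : (4 : k[X]).natDegree = 0 := natDegree_ofNat 4
    have h2 := natDegree_pow_le (p := a) (n := 3)
    omega
  · refine (natDegree_mul_le).trans ?_
    have h1 : (27 : k[X]).natDegree = 0 := natDegree_ofNat 27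
    have h2 := natDegree_pow_le (p := b) (n := 2)
    omega

omit [Finite k] in
/-- a prime square divides a polynomial which is not squarefree -/
lemma exists_sq {N : ℕ} (hN : 1 ≤ N) {f : k[X]} (hf : f.natDegree ≤ 12 * N) (h : ¬ Squarefree f) :
    ∃ P : k[X], P.Monic ∧ Irreducible P ∧ 1 ≤ P.natDegree ∧ P.natDegree ≤ 6 * N ∧ P ^ 2 ∣ f := by
  by_cases h0 : f = 0
  · refine ⟨X, monic_X, irreducible_X, by rw [natDegree_X], by rw [natDegree_X]; omega, ?_⟩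
    rw [h0]; exact dvd_zero _
  · rw [squarefree_iff_no_irreducibles h0] at h
    push Not at h
    obtain ⟨p, hp, hpd⟩ := h
    obtain ⟨π, hπ1, hπ2, hπ3⟩ := exists_monic hp
    have hd : π ^ 2 ∣ f := by
      rw [pow_two]
      exact ((hπ3.mul_mul hπ3).dvd).trans hpd
    refine ⟨π, hπ1, hπ2, hπ2.natDegree_pos, ?_, hd⟩
    have h1 := natDegree_le_of_dvd hd h0
    rw [natDegree_pow] at h1
    omega

lemma card_ge (h6 : (6 : k) ≠ 0) : 5 ≤ Nat.card k := by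
  have h1 := q_pos (k := k)
  haveI := Fintype.ofFinite k
  have h2 : ((Nat.card k : ℕ) : k) = 0 := by
    rw [Nat.card_eq_fintype_card]
    exact FiniteField.cast_card_eq_zero k
  by_contra h3
  push Not at h3
  have h4 : Nat.card k = 2 ∨ Nat.card k = 3 ∨ Nat.card k = 4 := by omega
  apply h6
  have e6 : (6 : k) = 2 * 3 := by norm_num
  rcases h4 with h4 | h4 | h4
  · rw [h4] at h2
    have : (2 : k) = 0 := by exact_mod_cast h2
    rw [e6, this, zero_mul]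
  · rw [h4] at h2
    have : (3 : k) = 0 := by exact_mod_cast h2
    rw [e6, this, mul_zero]
  · rw [h4] at h2
    have h5 : (4 : k) = 0 := by exact_mod_cast h2
    have h6 : (2 : k) ^ 2 = 0 := by
      rw [← h5]; norm_num
    have : (2 : k) = 0 := pow_eq_zero_iff (two_ne_zero) |>.1 h6
    rw [e6, this, zero_mul]

/-- the number of the pairs with discriminant not squarefree -/
lemma NS_le (h6 : (6 : k) ≠ 0) {M : k[X]} (hM : M.Monic) (N Y : ℕ) (hN : 1 ≤ N) (hY : Y ≤ 6 * N)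
    (A : k[X]) (a₀ b₀ : k)
    (hgood : ∀ P a b : k[X], Irreducible P → a ∈ Cl (4 * N) (C a₀ * X ^ (4 * N)) M A → M ∣ b →
      P ∣ dsc a b → IsCoprime P M) :
    {p : k[X] × k[X] | p.1 ∈ Cl (4 * N) (C a₀ * X ^ (4 * N)) M A ∧
      p.2 ∈ Cl (6 * N) (C b₀ * X ^ (6 * N)) M 0 ∧ ¬ Squarefree (dsc p.1 p.2)}.ncard ≤
    ∑ d ∈ Finset.Icc 1 Y, Nat.card k ^ d *
      (Nat.card k ^ (4 * N - M.natDegree) * (2 * Nat.card k ^ (6 * N - (2 * d + M.natDegree))) +
      Nat.card k ^ (4 * N - (d + M.natDegree)) * Nat.card k ^ (6 * N - (d + M.natDegree))) +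
    ∑ d ∈ Finset.Icc (Y + 1) (6 * N), (Irr k d).ncard *
      (Nat.card k ^ (4 * N) * (2 * Nat.card k ^ (6 * N - 2 * d)) +
      Nat.card k ^ (4 * N - d) * Nat.card k ^ (6 * N - d)) := by
  obtain ⟨f1, c1⟩ := union_fin (Finset.Icc 1 Y)
    (fun d => ⋃ P ∈ {P | P ∈ Irr k d ∧ IsCoprime P M},
      Bad (4 * N) (6 * N) (C a₀ * X ^ (4 * N)) (C b₀ * X ^ (6 * N)) M A P)
    (fun d => Nat.card k ^ d *
      (Nat.card k ^ (4 * N - M.natDegree) * (2 * Nat.card k ^ (6 * N - (2 * d + M.natDegree))) +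
      Nat.card k ^ (4 * N - (d + M.natDegree)) * Nat.card k ^ (6 * N - (d + M.natDegree))))
    (fun d _ => by
      have hfin : {P | P ∈ Irr k d ∧ IsCoprime P M}.Finite := (Irr_finite d).subset fun _ h => h.1
      obtain ⟨g1, g2⟩ := union_le {P | P ∈ Irr k d ∧ IsCoprime P M} hfin
        (fun P => Bad (4 * N) (6 * N) (C a₀ * X ^ (4 * N)) (C b₀ * X ^ (6 * N)) M A P)
        (Nat.card k ^ (4 * N - M.natDegree) * (2 * Nat.card k ^ (6 * N - (2 * d + M.natDegree))) +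
      Nat.card k ^ (4 * N - (d + M.natDegree)) * Nat.card k ^ (6 * N - (d + M.natDegree)))
        (fun P hP => by
          have h1 := Bad_le h6 hP.1.2.1 hP.1.1 hM hP.2 (4 * N) (6 * N) (C a₀ * X ^ (4 * N))
            (C b₀ * X ^ (6 * N)) A
          rw [hP.1.2.2] at h1
          exact h1)
      refine ⟨g1, g2.trans (Nat.mul_le_mul_right _ ?_)⟩
      exact (Set.ncard_le_ncard (fun _ h => h.1) (Irr_finite d)).trans (Irr_le d))
  obtain ⟨f2, c2⟩ := union_fin (Finset.Icc (Y + 1) (6 * N))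
    (fun d => ⋃ P ∈ Irr k d,
      Bad (4 * N) (6 * N) (C a₀ * X ^ (4 * N)) (C b₀ * X ^ (6 * N)) 1 0 P)
    (fun d => (Irr k d).ncard *
      (Nat.card k ^ (4 * N) * (2 * Nat.card k ^ (6 * N - 2 * d)) +
      Nat.card k ^ (4 * N - d) * Nat.card k ^ (6 * N - d)))
    (fun d _ => union_le (Irr k d) (Irr_finite d)
        (fun P => Bad (4 * N) (6 * N) (C a₀ * X ^ (4 * N)) (C b₀ * X ^ (6 * N)) 1 0 P) _
        (fun P hP => by
          have h1 := Bad_le h6 hP.2.1 hP.1 monic_one isCoprime_one_right (4 * N) (6 * N)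
            (C a₀ * X ^ (4 * N)) (C b₀ * X ^ (6 * N)) 0
          rw [hP.2.2, natDegree_one] at h1
          exact h1))
  refine (Set.ncard_le_ncard ?_ (f1.union f2)).trans ((Set.ncard_union_le _ _).trans
    (add_le_add c1 c2))
  rintro ⟨a, b⟩ ⟨h1, h2, h3⟩
  have h1' := mem_box.1 h1.1
  have h2' := mem_box.1 h2.1
  obtain ⟨P, p1, p2, p3, p4, p5⟩ := exists_sq hN (dsc_deg h1'.1 h2'.1) h3
  have hMb : M ∣ b := by simpa using h2.2
  by_cases hd : P.natDegree ≤ Y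
  · left
    simp only [Set.mem_iUnion]
    exact ⟨P.natDegree, Finset.mem_Icc.2 ⟨p3, hd⟩, P, ⟨⟨p1, p2, rfl⟩,
      hgood P a b p2 h1 hMb ((dvd_pow_self P two_ne_zero).trans p5)⟩, h1, h2, p5⟩
  · right
    simp only [Set.mem_iUnion]
    exact ⟨P.natDegree, Finset.mem_Icc.2 ⟨by omega, p4⟩, P, ⟨p1, p2, rfl⟩,
      ⟨h1.1, one_dvd _⟩, ⟨h2.1, one_dvd _⟩, p5⟩

end pairs

section numbers

lemma sumu {u : ℝ} (h0 : 0 ≤ u) (h1 : u ≤ 1 / 5) (a b : ℕ) :
    ∑ d ∈ Finset.Icc (a + 1) b, u ^ d ≤ u ^ a / 4 := by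
  have h2 : Finset.Icc (a + 1) b = Finset.Ico (a + 1) (b + 1) := by
    ext x; simp only [Finset.mem_Icc, Finset.mem_Ico]; omega
  rw [h2]
  refine (geom_sum_Ico_le_of_lt_one h0 (by linarith)).trans ?_
  rw [div_le_div_iff₀ (by linarith) (by norm_num), pow_succ]
  have h3 : 0 ≤ u ^ a := pow_nonneg h0 a
  nlinarith

lemma sumq {q : ℝ} (h : 5 ≤ q) (a b : ℕ) : ∑ d ∈ Finset.Icc (a + 1) b, q ^ d ≤ 5 / 4 * q ^ b := by
  have h1 : ∀ n : ℕ, ∑ d ∈ Finset.range (n + 1), q ^ d ≤ 5 / 4 * q ^ n := by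
    intro n
    induction n with
    | zero => simp; norm_num
    | succ n ih =>
      rw [Finset.sum_range_succ]
      have h2 : 0 ≤ q ^ n := by positivity
      have h3 : q ^ (n + 1) = q ^ n * q := pow_succ q n
      rw [h3] at *
      nlinarith
  refine le_trans ?_ (h1 b)
  refine Finset.sum_le_sum_of_subset_of_nonneg ?_ fun _ _ _ => by positivity
  intro x hx
  rw [Finset.mem_Icc] at hx
  exact Finset.mem_range.2 (by omega)

lemma num {q D N : ℕ} (hq : 5 ≤ q) (hN : 20 * q ^ (2 * D) + (2 * (2 * D + 2) + D) + 1 ≤ N) (I : ℕ → ℕ)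
    (hI : ∀ d, I d ≤ q ^ d) (hI2 : ∀ d, 1 ≤ d → d * I d ≤ q ^ d) :
    ((∑ d ∈ Finset.Icc 1 (2 * D + 2), q ^ d *
      (q ^ (4 * N - D) * (2 * q ^ (6 * N - (2 * d + D))) + q ^ (4 * N - (d + D)) * q ^ (6 * N - (d + D))) +
    ∑ d ∈ Finset.Icc (2 * D + 2 + 1) (6 * N), I d *
      (q ^ (4 * N) * (2 * q ^ (6 * N - 2 * d)) + q ^ (4 * N - d) * q ^ (6 * N - d)) : ℕ) : ℝ) ≤
    7 / 8 * ((q ^ (4 * N - D) * q ^ (6 * N - D) : ℕ) : ℝ) := by
  have hq' : (5:ℝ) ≤ q := by exact_mod_cast hq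
  have hq0 : (0:ℝ) < q := by linarith
  have hq2 : 0 ≤ q ^ (2 * D) := Nat.zero_le _
  have hN1 : 1 ≤ N := by omega
  have hN1' : (0:ℝ) < N := by exact_mod_cast hN1
  obtain ⟨u, hu⟩ : ∃ u : ℝ, u = 1 / q := ⟨_, rfl⟩
  have hu0 : 0 < u := by rw [hu]; positivity
  have hu1 : u ≤ 1 / 5 := by rw [hu]; exact one_div_le_one_div_of_le (by norm_num) hq'
  have hqu : (q:ℝ) * u = 1 := by rw [hu]; field_simp
  have hqun : ∀ n : ℕ, (q:ℝ) ^ n * u ^ n = 1 := fun n => by rw [← mul_pow, hqu, one_pow]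
  obtain ⟨T, hT⟩ : ∃ T : ℝ, T = ((q ^ (4 * N - D) * q ^ (6 * N - D) : ℕ) : ℝ) := ⟨_, rfl⟩
  have hT2 : T = (q:ℝ) ^ (10 * N) * u ^ (2 * D) := by
    have h1 : T * (q:ℝ) ^ (2 * D) = (q:ℝ) ^ (10 * N) := by
      rw [hT]
      push_cast
      rw [← pow_add, ← pow_add]
      congr 1
      omega
    calc T = T * ((q:ℝ) ^ (2 * D) * u ^ (2 * D)) := by rw [hqun, mul_one]
      _ = _ := by rw [← mul_assoc, h1]
  have hT0 : 0 < T := by rw [hT2]; positivity
  rw [← hT]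
  push_cast
  -- first sum
  have s1 : ∑ d ∈ Finset.Icc 1 (2 * D + 2), (q:ℝ) ^ d *
      ((q:ℝ) ^ (4 * N - D) * (2 * (q:ℝ) ^ (6 * N - (2 * d + D))) +
        (q:ℝ) ^ (4 * N - (d + D)) * (q:ℝ) ^ (6 * N - (d + D))) ≤ 3 / 4 * T := by
    have h1 : ∀ d ∈ Finset.Icc 1 (2 * D + 2), (q:ℝ) ^ d *
      ((q:ℝ) ^ (4 * N - D) * (2 * (q:ℝ) ^ (6 * N - (2 * d + D))) +
        (q:ℝ) ^ (4 * N - (d + D)) * (q:ℝ) ^ (6 * N - (d + D))) = 3 * T * u ^ d := by
      intro d hd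
      rw [Finset.mem_Icc] at hd
      obtain ⟨e3, he3⟩ : ∃ e3, e3 = 4 * N - (d + D) := ⟨_, rfl⟩
      obtain ⟨e2, he2⟩ : ∃ e2, e2 = 6 * N - (2 * d + D) := ⟨_, rfl⟩
      have a1 : 4 * N - D = e3 + d := by omega
      have a2 : 6 * N - (d + D) = e2 + d := by omega
      have a3 : 6 * N - D = e2 + 2 * d := by omega
      have hT3 : T = (q:ℝ) ^ (e3 + d) * (q:ℝ) ^ (e2 + 2 * d) := by
        rw [hT, a1, a3]; push_cast; rfl
      rw [← he3, ← he2, a1, a2, hT3]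
      have h5 := hqun d
      calc (q:ℝ) ^ d * ((q:ℝ) ^ (e3 + d) * (2 * (q:ℝ) ^ e2) + (q:ℝ) ^ e3 * (q:ℝ) ^ (e2 + d))
          = 3 * ((q:ℝ) ^ e3 * (q:ℝ) ^ e2 * ((q:ℝ) ^ d * (q:ℝ) ^ d)) * 1 := by
            rw [pow_add, pow_add]; ring
        _ = 3 * ((q:ℝ) ^ e3 * (q:ℝ) ^ e2 * ((q:ℝ) ^ d * (q:ℝ) ^ d)) * ((q:ℝ) ^ d * u ^ d) := by rw [h5]
        _ = _ := by rw [pow_add, pow_add, two_mul, pow_add]; ring
    rw [Finset.sum_congr rfl h1, ← Finset.mul_sum]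
    have h2 := sumu hu0.le hu1 0 (2 * D + 2)
    rw [pow_zero, zero_add] at h2
    have h3 := mul_le_mul_of_nonneg_left h2 (by positivity : 0 ≤ 3 * T)
    linarith
  -- second sum
  have s2 : ∑ d ∈ Finset.Icc (2 * D + 2 + 1) (6 * N), (I d : ℝ) *
      ((q:ℝ) ^ (4 * N) * (2 * (q:ℝ) ^ (6 * N - 2 * d)) + (q:ℝ) ^ (4 * N - d) * (q:ℝ) ^ (6 * N - d)) ≤
      3 * (q:ℝ) ^ (10 * N) * (u ^ (2 * D + 2) / 4) + (q:ℝ) ^ (4 * N) / N * (5 / 4 * (q:ℝ) ^ (6 * N)) := by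
    have h1 : ∀ d ∈ Finset.Icc (2 * D + 2 + 1) (6 * N), (I d : ℝ) *
      ((q:ℝ) ^ (4 * N) * (2 * (q:ℝ) ^ (6 * N - 2 * d)) + (q:ℝ) ^ (4 * N - d) * (q:ℝ) ^ (6 * N - d)) ≤
      3 * (q:ℝ) ^ (10 * N) * u ^ d + (q:ℝ) ^ (4 * N) / N * (q:ℝ) ^ d := by
      intro d hd
      rw [Finset.mem_Icc] at hd
      have k0 : (0:ℝ) ≤ (I d : ℝ) := Nat.cast_nonneg _
      have k1 : (I d : ℝ) ≤ (q:ℝ) ^ d := by exact_mod_cast hI d
      have k2 : (d:ℝ) * (I d : ℝ) ≤ (q:ℝ) ^ d := by exact_mod_cast hI2 d (by omega)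
      rcases le_or_gt d (3 * N) with h | h
      · have h2 : (q:ℝ) ^ (4 * N) * (2 * (q:ℝ) ^ (6 * N - 2 * d)) + (q:ℝ) ^ (4 * N - d) * (q:ℝ) ^ (6 * N - d) =
            3 * (q:ℝ) ^ (10 * N - 2 * d) := by
          have e1 : 10 * N - 2 * d = 4 * N + (6 * N - 2 * d) := by omega
          have e2 : (4 * N - d) + (6 * N - d) = 10 * N - 2 * d := by omega
          rw [← pow_add, e2, e1, pow_add]
          ring
        rw [h2]
        have h3 : (I d : ℝ) * (3 * (q:ℝ) ^ (10 * N - 2 * d)) ≤ (q:ℝ) ^ d * (3 * (q:ℝ) ^ (10 * N - 2 * d)) :=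
          mul_le_mul_of_nonneg_right k1 (by positivity)
        have h4 : (q:ℝ) ^ d * (3 * (q:ℝ) ^ (10 * N - 2 * d)) = 3 * (q:ℝ) ^ (10 * N) * u ^ d := by
          have e1 : 10 * N = 10 * N - 2 * d + d + d := by omega
          calc (q:ℝ) ^ d * (3 * (q:ℝ) ^ (10 * N - 2 * d))
              = (q:ℝ) ^ d * (3 * (q:ℝ) ^ (10 * N - 2 * d)) * ((q:ℝ) ^ d * u ^ d) := by rw [hqun, mul_one]
            _ = 3 * ((q:ℝ) ^ (10 * N - 2 * d) * (q:ℝ) ^ d * (q:ℝ) ^ d) * u ^ d := by ring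
            _ = _ := by rw [← pow_add, ← pow_add, ← e1]
        have h5 : 0 ≤ (q:ℝ) ^ (4 * N) / N * (q:ℝ) ^ d := by positivity
        linarith
      · have h2 : (q:ℝ) ^ (4 * N - d) * (q:ℝ) ^ (6 * N - d) ≤ (q:ℝ) ^ (4 * N) := by
          rw [← pow_add]
          exact pow_le_pow_right₀ (by linarith) (by omega)
        have h3 : 6 * N - 2 * d = 0 := by omega
        rw [h3, pow_zero, mul_one]
        have h4 : (I d : ℝ) * ((q:ℝ) ^ (4 * N) * 2 + (q:ℝ) ^ (4 * N - d) * (q:ℝ) ^ (6 * N - d)) ≤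
            (I d : ℝ) * (3 * (q:ℝ) ^ (4 * N)) := mul_le_mul_of_nonneg_left (by linarith) k0
        have h5 : (I d : ℝ) * (3 * (q:ℝ) ^ (4 * N)) ≤ (q:ℝ) ^ (4 * N) / N * (q:ℝ) ^ d := by
          have h6 : 3 * (N:ℝ) * (I d : ℝ) ≤ (q:ℝ) ^ d := by
            refine le_trans (mul_le_mul_of_nonneg_right ?_ k0) k2
            have : 3 * N ≤ d := h.le
            exact_mod_cast this
          rw [div_mul_eq_mul_div, le_div_iff₀ hN1']
          calc (I d : ℝ) * (3 * (q:ℝ) ^ (4 * N)) * N = (q:ℝ) ^ (4 * N) * (3 * (N:ℝ) * (I d : ℝ)) := by ring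
            _ ≤ _ := mul_le_mul_of_nonneg_left h6 (by positivity)
        have h7 : 0 ≤ 3 * (q:ℝ) ^ (10 * N) * u ^ d := by positivity
        linarith
    refine (Finset.sum_le_sum h1).trans ?_
    rw [Finset.sum_add_distrib, ← Finset.mul_sum, ← Finset.mul_sum]
    exact add_le_add (mul_le_mul_of_nonneg_left (sumu hu0.le hu1 _ _) (by positivity))
      (mul_le_mul_of_nonneg_left (sumq hq' _ _) (by positivity))
  have s3 : 3 * (q:ℝ) ^ (10 * N) * (u ^ (2 * D + 2) / 4) ≤ 3 / 100 * T := by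
    have h1 : u ^ (2 * D + 2) = u ^ (2 * D) * u ^ 2 := pow_add _ _ _
    have h2 : u ^ 2 ≤ 1 / 25 := by
      have := pow_le_pow_left₀ hu0.le hu1 2
      norm_num at this ⊢
      exact this
    have h3 : T * u ^ 2 ≤ T * (1 / 25) := mul_le_mul_of_nonneg_left h2 hT0.le
    have h4 : 3 * (q:ℝ) ^ (10 * N) * (u ^ (2 * D + 2) / 4) = 3 / 4 * (T * u ^ 2) := by
      rw [h1, hT2]; ring
    rw [h4]
    linarith
  have s4 : (q:ℝ) ^ (4 * N) / N * (5 / 4 * (q:ℝ) ^ (6 * N)) ≤ 1 / 16 * T := by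
    have h1 : (q:ℝ) ^ (10 * N) = (q:ℝ) ^ (4 * N) * (q:ℝ) ^ (6 * N) := by
      rw [← pow_add]; congr 1; ring
    have h2 : 20 * (q:ℝ) ^ (2 * D) ≤ N := by
      have : 20 * q ^ (2 * D) ≤ N := by omega
      exact_mod_cast this
    have h3 : (q:ℝ) ^ (10 * N) = T * (q:ℝ) ^ (2 * D) := by
      rw [hT2, mul_assoc, mul_comm (u ^ (2 * D)), hqun, mul_one]
    have h4 : (q:ℝ) ^ (4 * N) / N * (5 / 4 * (q:ℝ) ^ (6 * N)) = 5 / 4 * (q:ℝ) ^ (10 * N) / N := by
      rw [h1]; ring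
    rw [h4, div_le_iff₀ hN1', h3]
    have h5 : T * (20 * (q:ℝ) ^ (2 * D)) ≤ T * N := mul_le_mul_of_nonneg_left h2 hT0.le
    linarith
  linarith

end numbers

theorem fam : S_FAM := by
  intro k _ _ h6 a₀ b₀ _
  refine ⟨1 / 8, by norm_num, ?_⟩
  intro S s hS
  have hq := card_ge h6
  obtain ⟨M, hM⟩ : ∃ M : k[X], M = ∏ Q ∈ S, Q := ⟨_, rfl⟩
  have hMm : M.Monic := by
    rw [hM]; exact monic_prod_of_monic _ _ fun Q hQ => (hS Q hQ).1
  obtain ⟨D, hD⟩ : ∃ D : ℕ, D = M.natDegree := ⟨_, rfl⟩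
  have hD' : D = ∑ Q ∈ S, Q.natDegree := by
    rw [hD, hM, natDegree_prod_of_monic _ _ fun Q hQ => (hS Q hQ).1]
  have hcop : ∀ Q ∈ S, ∀ R ∈ S, Q ≠ R → IsCoprime Q R := fun Q hQ R hR hne =>
    coprime_of_ne ⟨(hS Q hQ).1, (hS Q hQ).2.1⟩ ⟨(hS R hR).1, (hS R hR).2.1⟩ hne
  have hMdvd : ∀ x : k[X], M ∣ x ↔ ∀ Q ∈ S, Q ∣ x := by
    intro x
    constructor
    · intro h Q hQ
      refine Dvd.dvd.trans ?_ h
      rw [hM]
      exact Finset.dvd_prod_of_mem _ hQ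
    · intro h
      rw [hM]
      exact Finset.prod_dvd_of_coprime (fun Q hQ R hR hne =>
        hcop Q (by simpa using hQ) R (by simpa using hR) hne) h
  -- Chinese remainder theorem
  obtain ⟨A, hA⟩ : ∃ A : k[X], ∀ Q ∈ S, Q ∣ A - s Q := by
    have h1 : Pairwise (Function.onFun IsCoprime fun Q : S => Ideal.span {(Q : k[X])}) := by
      intro Q R hne
      show IsCoprime (Ideal.span {(Q : k[X])}) (Ideal.span {(R : k[X])})
      rw [Ideal.isCoprime_span_singleton_iff]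
      exact hcop Q Q.2 R R.2 fun h => hne (Subtype.ext h)
    obtain ⟨A, hA⟩ := Ideal.exists_forall_sub_mem_ideal h1 (fun Q : S => s Q)
    exact ⟨A, fun Q hQ => Ideal.mem_span_singleton.1 (hA ⟨Q, hQ⟩)⟩
  have hnm : ∏ Q ∈ S, nm Q ^ 2 = Nat.card k ^ (2 * D) := by
    rw [hD', Finset.mul_sum, ← Finset.prod_pow_eq_pow_sum]
    refine Finset.prod_congr rfl fun Q _ => ?_
    unfold nm
    rw [← pow_mul, mul_comm]
  refine ⟨20 * Nat.card k ^ (2 * D) + (2 * (2 * D + 2) + D) + 1, ?_⟩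
  intro N hN
  have hN1 : 1 ≤ N := by omega
  have hq2 : 0 ≤ Nat.card k ^ (2 * D) := Nat.zero_le _
  -- the whole box and the bad pairs
  obtain ⟨T, hT⟩ : ∃ T : Set (k[X] × k[X]), T = Cl (4 * N) (C a₀ * X ^ (4 * N)) M A ×ˢ
      Cl (6 * N) (C b₀ * X ^ (6 * N)) M 0 := ⟨_, rfl⟩
  obtain ⟨NS, hNS⟩ : ∃ NS : Set (k[X] × k[X]), NS = {p : k[X] × k[X] |
      p.1 ∈ Cl (4 * N) (C a₀ * X ^ (4 * N)) M A ∧
      p.2 ∈ Cl (6 * N) (C b₀ * X ^ (6 * N)) M 0 ∧ ¬ Squarefree (dsc p.1 p.2)} := ⟨_, rfl⟩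
  have hTfin : T.Finite := by
    rw [hT]; exact (Cl_finite _ _ _ _).prod (Cl_finite _ _ _ _)
  have hNST : NS ⊆ T := by
    rw [hNS, hT]
    intro p hp
    exact ⟨hp.1, hp.2.1⟩
  have hTc : T.ncard = Nat.card k ^ (4 * N - D) * Nat.card k ^ (6 * N - D) := by
    rw [hT, Set.ncard_prod, Cl_ncard hMm (by omega), Cl_ncard hMm (by omega), hD]
  have hFam : T \ NS ⊆ {p : k[X] × k[X] | Fam N a₀ b₀ S s p.1 p.2} := by
    rintro ⟨a, b⟩ ⟨h1, h2⟩
    rw [hT] at h1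
    rw [hNS] at h2
    obtain ⟨h3, h4⟩ := h1
    have h3' := mem_box.1 h3.1
    have h4' := mem_box.1 h4.1
    refine ⟨h3'.1, h4'.1, h3'.2, h4'.2, ?_, ?_, ?_⟩
    · intro Q hQ
      have e1 : a - s Q = (a - A) + (A - s Q) := by ring
      rw [e1]
      exact dvd_add ((hMdvd _).1 h3.2 Q hQ) (hA Q hQ)
    · intro Q hQ
      have h5 : M ∣ b := by simpa using h4.2
      exact (hMdvd _).1 h5 Q hQ
    · by_contra h5
      exact h2 ⟨h3, h4, h5⟩
  have hFfin : {p : k[X] × k[X] | Fam N a₀ b₀ S s p.1 p.2}.Finite := by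
    refine hTfin.subset ?_
    rintro ⟨a, b⟩ h
    rw [hT]
    refine ⟨⟨mem_box.2 ⟨h.da, h.ca⟩, ?_⟩, ⟨mem_box.2 ⟨h.db, h.cb⟩, ?_⟩⟩
    · rw [hMdvd]
      intro Q hQ
      have e1 : a - A = (a - s Q) - (A - s Q) := by ring
      show Q ∣ a - A
      rw [e1]
      exact dvd_sub (h.ra Q hQ) (hA Q hQ)
    · rw [hMdvd]
      intro Q hQ
      show Q ∣ b - 0
      rw [sub_zero]
      exact h.rb Q hQ
  have hgood : ∀ P a b : k[X], Irreducible P → a ∈ Cl (4 * N) (C a₀ * X ^ (4 * N)) M A → M ∣ b →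
      P ∣ dsc a b → IsCoprime P M := by
    intro P a b hP ha hb hd
    rw [hP.coprime_iff_not_dvd]
    intro hPM
    rw [hM, hP.prime.dvd_finset_prod_iff] at hPM
    obtain ⟨Q, hQ, hPQ⟩ := hPM
    have hQP : Q ∣ P := (hP.associated_of_dvd (hS Q hQ).2.1 hPQ).symm.dvd
    have hQd : Q ∣ dsc a b := hQP.trans hd
    have hQb : Q ∣ b := (hMdvd _).1 hb Q hQ
    have hQa : Q ∣ a := dvd_a h6 (hS Q hQ).2.1 hQb hQd
    have hQs : Q ∣ s Q := by
      have e1 : s Q = a - ((a - A) + (A - s Q)) := by ring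
      rw [e1]
      exact dvd_sub hQa (dvd_add ((hMdvd _).1 ha.2 Q hQ) (hA Q hQ))
    refine (hS Q hQ).2.2 0 ?_
    rw [zero_pow two_ne_zero, zero_add]
    exact hQs
  have h1 := NS_le h6 hMm N (2 * D + 2) hN1 (by omega) A a₀ b₀ hgood
  rw [← hNS, ← hD] at h1
  have h2 := num hq hN (fun d => (Irr k d).ncard) Irr_le (fun d hd => Irr_mul_le hd)
  have h3 : ((NS.ncard : ℕ) : ℝ) ≤ 7 / 8 * ((T.ncard : ℕ) : ℝ) := by
    rw [hTc]
    refine le_trans ?_ h2
    exact_mod_cast h1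
  have h4 : T.ncard - NS.ncard ≤ {p : k[X] × k[X] | Fam N a₀ b₀ S s p.1 p.2}.ncard := by
    rw [← Set.ncard_sdiff hNST (hTfin.subset hNST)]
    exact Set.ncard_le_ncard hFam hFfin
  have h5 : NS.ncard ≤ T.ncard := Set.ncard_le_ncard hNST hTfin
  have h6' : ((T.ncard : ℕ) : ℝ) - ((NS.ncard : ℕ) : ℝ) ≤
      ({p : k[X] × k[X] | Fam N a₀ b₀ S s p.1 p.2}.ncard : ℝ) := by
    rw [← Nat.cast_sub h5]
    exact_mod_cast h4
  have h7 : 1 / 8 * ((T.ncard : ℕ) : ℝ) ≤ ({p : k[X] × k[X] | Fam N a₀ b₀ S s p.1 p.2}.ncard : ℝ) := by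
    linarith
  rw [hnm]
  have h8 : (Nat.card k : ℝ) ^ (10 * N) = ((Nat.card k ^ (2 * D) : ℕ) : ℝ) * ((T.ncard : ℕ) : ℝ) := by
    rw [hTc]
    push_cast
    rw [← pow_add, ← pow_add]
    congr 1
    omega
  rw [h8]
  have h9 : (0:ℝ) ≤ ((Nat.card k ^ (2 * D) : ℕ) : ℝ) := Nat.cast_nonneg _
  calc 1 / 8 * (((Nat.card k ^ (2 * D) : ℕ) : ℝ) * ((T.ncard : ℕ) : ℝ))
      = ((Nat.card k ^ (2 * D) : ℕ) : ℝ) * (1 / 8 * ((T.ncard : ℕ) : ℝ)) := by ring
    _ ≤ _ := mul_le_mul_of_nonneg_left h7 h9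

end Pool.Agent.N490.PP.Fam
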